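import Pool.Agent.Y152.RP.Stm

/-!
Project RP, job RP-POWA: the conjugates of a square root of a rational multiple of a root of unity.
-/

set_option autoImplicit false

namespace Pool.Agent.Y640.RP

open Polynomial

/-- The product of the values at `x` and `-x` is a polynomial in `x ^ 2`. -/
theorem even_part (m : ℚ[X]) : ∃ Q : ℚ[X], ∀ x : ℂ, aeval x m * aeval (-x) m = aeval (x ^ 2) Q := by
  obtain ⟨A, B, h⟩ : ∃ A B : ℚ[X], ∀ x : ℂ, aeval x m = aeval (x ^ 2) A + x * aeval (x ^ 2) B := by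
    induction m using Polynomial.induction_on' with
    | add p q hp hq =>
      obtain ⟨A, B, h⟩ := hp
      obtain ⟨A', B', h'⟩ := hq
      refine ⟨A + A', B + B', fun x => ?_⟩
      rw [map_add, h, h', map_add, map_add]
      ring
    | monomial k c =>
      obtain ⟨i, hi⟩ := Nat.even_or_odd' k
      rcases hi with hi | hi
      · refine ⟨monomial i c, 0, fun x => ?_⟩
        rw [aeval_monomial, aeval_monomial, map_zero, hi, pow_mul]
        ring
      · refine ⟨0, monomial i c, fun x => ?_⟩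
        rw [aeval_monomial, aeval_monomial, map_zero, hi, pow_succ, pow_mul]
        ring
  refine ⟨A ^ 2 - X * B ^ 2, fun x => ?_⟩
  rw [h x, h (-x), neg_sq, map_sub, map_mul, map_pow, map_pow, aeval_X]
  ring

section

variable {τ : ℂ} {H : ℤ[X]}

theorem deg_pos (hH : Irreducible H) (h0 : aeval τ H = 0) : H.natDegree ≠ 0 := by
  intro hd
  rw [eq_C_of_natDegree_eq_zero hd, aeval_C] at h0
  have h1 : H.coeff 0 = 0 := by simpa using h0
  rw [eq_C_of_natDegree_eq_zero hd, h1, C_0] at hH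
  exact not_irreducible_zero hH

theorem irr_map (hH : Irreducible H) (h0 : aeval τ H = 0) :
    Irreducible (H.map (algebraMap ℤ ℚ)) :=
  (IsPrimitive.Int.irreducible_iff_irreducible_map_cast (hH.isPrimitive (deg_pos hH h0))).1 hH

theorem aeval_mapQ (z : ℂ) : aeval z (H.map (algebraMap ℤ ℚ)) = aeval z H :=
  aeval_map_algebraMap ℚ z H

/-- Rational polynomials which vanish at `τ` vanish at the roots of `H`. -/
theorem transfer (hH : Irreducible H) (h0 : aeval τ H = 0) (P : ℚ[X]) (hP : aeval τ P = 0)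
    {z : ℂ} (hz : aeval z H = 0) : aeval z P = 0 := by
  have hi := irr_map hH h0
  have h1 : aeval τ (H.map (algebraMap ℤ ℚ)) = 0 := by rw [aeval_mapQ, h0]
  have h2 : minpoly ℚ τ ∣ H.map (algebraMap ℤ ℚ) := minpoly.dvd ℚ τ h1
  have hint : IsIntegral ℚ τ := IsAlgebraic.isIntegral ⟨_, hi.ne_zero, h1⟩
  have h3 : H.map (algebraMap ℤ ℚ) ∣ minpoly ℚ τ :=
    ((minpoly.irreducible hint).associated_of_dvd hi h2).symm.dvd
  obtain ⟨R, hR⟩ := h3.trans (minpoly.dvd ℚ τ hP)
  rw [hR, map_mul, aeval_mapQ, hz, zero_mul]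

theorem mem_R (hH : Irreducible H) {z : ℂ} : z ∈ (H.aroots ℂ).toFinset ↔ aeval z H = 0 := by
  rw [Multiset.mem_toFinset, mem_aroots]
  exact ⟨fun h => h.2, fun h => ⟨hH.ne_zero, h⟩⟩

theorem card_R (hH : Irreducible H) (h0 : aeval τ H = 0) :
    H.natDegree = (H.aroots ℂ).toFinset.card := by
  have hsep : (H.map (algebraMap ℤ ℂ)).Separable := by
    have h := (irr_map hH h0).separable
    have h2 := h.map (f := algebraMap ℚ ℂ)
    rw [Polynomial.map_map, ← IsScalarTower.algebraMap_eq] at h2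
    exact h2
  have hn : (H.aroots ℂ).Nodup := nodup_roots hsep
  rw [Multiset.toFinset_card_of_nodup hn]
  have h1 := (IsAlgClosed.splits (H.map (algebraMap ℤ ℂ))).natDegree_eq_card_roots
  rw [natDegree_map_eq_of_injective (algebraMap ℤ ℂ).injective_int] at h1
  exact h1

end

/-- the rational polynomial `Φ_n (X / q)`, or any rational polynomial, at `X / q` -/
theorem scale (P : ℚ[X]) (q : ℚ) : ∃ Q : ℚ[X], ∀ x : ℂ, aeval x Q = aeval (x * (q : ℂ)) P := by
  refine ⟨P.comp (X * C q), fun x => ?_⟩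
  rw [aeval_comp, map_mul, aeval_X, aeval_C]
  rfl

/-- Rational polynomials which vanish at one primitive root of unity vanish at all of them. -/
theorem cyc_transfer {n : ℕ} (hn : 0 < n) {ω ω' : ℂ} (hω : IsPrimitiveRoot ω n)
    (hω' : IsPrimitiveRoot ω' n) (P : ℚ[X]) (h : aeval ω P = 0) : aeval ω' P = 0 := by
  have h1 : minpoly ℚ ω ∣ P := minpoly.dvd ℚ ω h
  rw [← cyclotomic_eq_minpoly_rat hω hn] at h1
  obtain ⟨R, hR⟩ := h1
  have h2 : aeval ω' (cyclotomic n ℚ) = 0 := by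
    rw [cyclotomic_eq_minpoly_rat hω' hn, minpoly.aeval]
  rw [hR, map_mul, h2, zero_mul]

section

variable {n : ℕ} {ω τ : ℂ} {q : ℚ} {H : ℤ[X]}

/-- `z ^ 2` is `q` times a primitive root of unity. -/
theorem sq_root (hn : 0 < n) (hω : IsPrimitiveRoot ω n) (hq : 0 < q) (ht : τ ^ 2 = ω * (q : ℂ))
    (hH : Irreducible H) (h0 : aeval τ H = 0) {z : ℂ} (hz : aeval z H = 0) :
    ∃ ω' : ℂ, IsPrimitiveRoot ω' n ∧ z ^ 2 = ω' * (q : ℂ) := by
  have hq' : (q : ℂ) ≠ 0 := by exact_mod_cast hq.ne'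
  set P : ℚ[X] := (cyclotomic n ℚ).comp (C q⁻¹ * X ^ 2) with hP
  have hev : ∀ x : ℂ, aeval x P = aeval (x ^ 2 / (q : ℂ)) (cyclotomic n ℚ) := by
    intro x
    rw [hP, aeval_comp, map_mul, aeval_C, map_pow, aeval_X]
    congr 1
    rw [map_inv₀, div_eq_inv_mul]
    rfl
  have h1 : aeval τ P = 0 := by
    rw [hev, ht, mul_div_cancel_right₀ _ hq', cyclotomic_eq_minpoly_rat hω hn, minpoly.aeval]
  have h2 := transfer hH h0 P h1 hz
  rw [hev] at h2
  refine ⟨z ^ 2 / (q : ℂ), ?_, (div_mul_cancel₀ _ hq').symm⟩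
  have : NeZero ((n : ℕ) : ℂ) := ⟨by exact_mod_cast hn.ne'⟩
  rw [← isRoot_cyclotomic_iff, IsRoot.def, ← map_cyclotomic n (algebraMap ℚ ℂ), eval_map_algebraMap]
  exact h2

/-- One of the two square roots of `q ω'` is a root of `H`. -/
theorem onto (hn : 0 < n) (hω : IsPrimitiveRoot ω n) (ht : τ ^ 2 = ω * (q : ℂ))
    (h0 : aeval τ H = 0) {ω' x : ℂ} (hω' : IsPrimitiveRoot ω' n) (hx : x ^ 2 = ω' * (q : ℂ)) :
    aeval x H = 0 ∨ aeval (-x) H = 0 := by
  obtain ⟨Q, hQ⟩ := even_part (H.map (algebraMap ℤ ℚ))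
  obtain ⟨Q', hQ'⟩ := scale Q q
  have h1 : aeval ω Q' = 0 := by
    rw [hQ', ← ht, ← hQ, aeval_mapQ, h0, zero_mul]
  have h2 := cyc_transfer hn hω hω' Q' h1
  rw [hQ', ← hx, ← hQ, aeval_mapQ, aeval_mapQ] at h2
  exact mul_eq_zero.1 h2

theorem pow_2n (hn : 0 < n) (hω : IsPrimitiveRoot ω n) (hq : 0 < q) (ht : τ ^ 2 = ω * (q : ℂ))
    (hH : Irreducible H) (h0 : aeval τ H = 0) {z : ℂ} (hz : aeval z H = 0) :
    z ^ (2 * n) = (q : ℂ) ^ n := by
  obtain ⟨ω', h1, h2⟩ := sq_root hn hω hq ht hH h0 hz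
  rw [pow_mul, h2, mul_pow, h1.pow_eq_one, one_mul]

/-- For odd `j = 2 i + 1` prime to `n`, up to a sign `z ↦ z ^ j / q ^ i` permutes the roots. -/
theorem sums (hn : 0 < n) (hω : IsPrimitiveRoot ω n) (hq : 0 < q) (ht : τ ^ 2 = ω * (q : ℂ))
    (hH : Irreducible H) (h0 : aeval τ H = 0) {i : ℕ} (hj : (2 * i + 1).Coprime n) :
    ∃ e : ℂ, (e = 1 ∨ e = -1) ∧ ∀ f : ℂ → ℂ,
      ∑ z ∈ (H.aroots ℂ).toFinset, f (e * (z ^ (2 * i + 1) / (q : ℂ) ^ i)) =
        ∑ z ∈ (H.aroots ℂ).toFinset, f z := by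
  have hq' : (q : ℂ) ≠ 0 := by exact_mod_cast hq.ne'
  have hqi : (q : ℂ) ^ i ≠ 0 := pow_ne_zero _ hq'
  have hω' : IsPrimitiveRoot (ω ^ (2 * i + 1)) n := hω.pow_of_coprime _ hj
  have hx : (τ ^ (2 * i + 1) / (q : ℂ) ^ i) ^ 2 = ω ^ (2 * i + 1) * (q : ℂ) := by
    rw [div_pow, ← pow_mul, mul_comm (2 * i + 1) 2, pow_mul, ht, mul_pow, div_eq_iff (pow_ne_zero _ hqi)]
    ring
  have h1 := onto hn hω ht h0 hω' hx
  obtain ⟨e, he, h2⟩ : ∃ e : ℚ, (e = 1 ∨ e = -1) ∧
      aeval ((e : ℂ) * (τ ^ (2 * i + 1) / (q : ℂ) ^ i)) H = 0 := by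
    rcases h1 with h1 | h1
    · exact ⟨1, Or.inl rfl, by simpa using h1⟩
    · exact ⟨-1, Or.inr rfl, by simpa using h1⟩
  have he0 : (e : ℂ) ≠ 0 := by
    rcases he with rfl | rfl <;> norm_num
  refine ⟨(e : ℂ), by rcases he with rfl | rfl <;> norm_num, fun f => ?_⟩
  set g : ℂ → ℂ := fun z => (e : ℂ) * (z ^ (2 * i + 1) / (q : ℂ) ^ i) with hg
  set R := (H.aroots ℂ).toFinset with hR
  have hmaps : ∀ z ∈ R, g z ∈ R := by
    intro z hz
    rw [hR, mem_R hH] at hz ⊢
    have hev : ∀ y : ℂ, aeval y ((H.map (algebraMap ℤ ℚ)).comp (C (e / q ^ i) * X ^ (2 * i + 1))) =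
        aeval (g y) H := by
      intro y
      rw [aeval_comp, aeval_mapQ, map_mul, aeval_C, map_pow, aeval_X, hg]
      congr 2
      rw [map_div₀, map_pow]
      change ((e : ℂ) / (q : ℂ) ^ i) * y ^ (2 * i + 1) = _
      ring
    rw [← hev]
    refine transfer hH h0 _ ?_ hz
    rw [hev]
    exact h2
  have hinj : Set.InjOn g R := by
    intro z hz z' hz' h
    have hz1 : aeval z H = 0 := (mem_R hH).1 hz
    have hz2 : aeval z' H = 0 := (mem_R hH).1 hz'
    have h3 : z ^ (2 * i + 1) = z' ^ (2 * i + 1) := by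
      have := mul_left_cancel₀ he0 h
      field_simp at this
      exact this
    have h4 := pow_2n hn hω hq ht hH h0 hz1
    have h5 := pow_2n hn hω hq ht hH h0 hz2
    have hz0 : z' ≠ 0 := by
      rintro rfl
      rw [zero_pow (by omega)] at h5
      exact pow_ne_zero n hq' h5.symm
    have h6 : (z / z') ^ (2 * i + 1) = 1 := by
      rw [div_pow, h3, div_self (pow_ne_zero _ hz0)]
    have h7 : (z / z') ^ (2 * n) = 1 := by
      rw [div_pow, h4, h5, div_self (pow_ne_zero _ hq')]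
    have h8 : Nat.gcd (2 * i + 1) (2 * n) = 1 := by
      rw [← Nat.coprime_iff_gcd_eq_one, Nat.coprime_mul_iff_right]
      exact ⟨by simp, hj⟩
    have h9 := pow_gcd_eq_one.2 ⟨h6, h7⟩
    rw [h8, pow_one, div_eq_one_iff_eq hz0] at h9
    exact h9
  have himg : R.image g = R := by
    refine Finset.eq_of_subset_of_card_le (Finset.image_subset_iff.2 hmaps) ?_
    rw [Finset.card_image_of_injOn hinj]
  conv_rhs => rw [← himg]
  rw [Finset.sum_image hinj]

end

theorem powA : Pool.Agent.Y152.RP.PowAStm := by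
  intro n ω τ q hn hω hq ht H hH h0
  have hq' : (q : ℂ) ≠ 0 := by exact_mod_cast hq.ne'
  have hqR : (0 : ℝ) < (q : ℝ) := by exact_mod_cast hq
  have hcard := card_R hH h0
  have hsq : ∀ z ∈ (H.aroots ℂ).toFinset, ∃ ω' : ℂ, IsPrimitiveRoot ω' n ∧
      z ^ 2 = ω' * (q : ℂ) := fun z hz => sq_root hn hω hq ht hH h0 ((mem_R hH).1 hz)
  have hdeg1 : Nat.totient n ≤ H.natDegree := by
    rw [hcard, ← hω.card_primitiveRoots]
    have : primitiveRoots n ℂ ⊆ (H.aroots ℂ).toFinset.image fun z => z ^ 2 / (q : ℂ) := by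
      intro ω' hω'
      rw [mem_primitiveRoots hn] at hω'
      obtain ⟨x, hx⟩ := IsAlgClosed.exists_pow_nat_eq (ω' * (q : ℂ)) (n := 2) (by norm_num)
      rw [Finset.mem_image]
      rcases onto hn hω ht h0 hω' hx with h | h
      · exact ⟨x, (mem_R hH).2 h, by rw [hx, mul_div_cancel_right₀ _ hq']⟩
      · exact ⟨-x, (mem_R hH).2 h, by rw [neg_sq, hx, mul_div_cancel_right₀ _ hq']⟩
    exact (Finset.card_le_card this).trans Finset.card_image_le
  have hdeg2 : H.natDegree ≤ 2 * Nat.totient n := by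
    rw [hcard, ← hω.card_primitiveRoots]
    have hm : Set.MapsTo (fun z : ℂ => z ^ 2 / (q : ℂ)) ((H.aroots ℂ).toFinset : Set ℂ)
        (primitiveRoots n ℂ : Set ℂ) := by
      intro z hz
      obtain ⟨ω', h1, h2⟩ := hsq z hz
      simp only [Finset.mem_coe, mem_primitiveRoots hn]
      rw [h2, mul_div_cancel_right₀ _ hq']
      exact h1
    refine Finset.card_le_mul_card_image_of_maps_to hm 2 ?_
    intro ω' _
    by_cases hex : ∃ x ∈ (H.aroots ℂ).toFinset, x ^ 2 / (q : ℂ) = ω'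
    · obtain ⟨x, _, hx⟩ := hex
      have : ({z ∈ (H.aroots ℂ).toFinset | z ^ 2 / (q : ℂ) = ω'} : Finset ℂ) ⊆ {x, -x} := by
        intro z hz
        rw [Finset.mem_filter] at hz
        have h1 : z ^ 2 = x ^ 2 := by
          have h2 := hz.2
          rw [← hx, div_left_inj' hq'] at h2
          exact h2
        rw [Finset.mem_insert, Finset.mem_singleton]
        exact sq_eq_sq_iff_eq_or_eq_neg.1 h1
      exact (Finset.card_le_card this).trans Finset.card_le_two
    · push Not at hex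
      rw [Finset.filter_false_of_mem hex]
      simp
  have hodd1 : ∀ i : ℕ, (2 * i + 1).Coprime n →
      ‖∑ z ∈ (H.aroots ℂ).toFinset, z ^ (2 * i + 1)‖ =
        (q : ℝ) ^ i * ‖∑ z ∈ (H.aroots ℂ).toFinset, z‖ := by
    intro i hi
    obtain ⟨e, he, hf⟩ := sums hn hω hq ht hH h0 hi
    have h1 := hf fun z => z
    have hqi : (q : ℂ) ^ i ≠ 0 := pow_ne_zero _ hq'
    have h2 : ∑ z ∈ (H.aroots ℂ).toFinset, z ^ (2 * i + 1) =
        e * (q : ℂ) ^ i * ∑ z ∈ (H.aroots ℂ).toFinset, z := by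
      rw [← h1, Finset.mul_sum]
      refine Finset.sum_congr rfl fun z _ => ?_
      have hee : e * e = 1 := by rcases he with rfl | rfl <;> norm_num
      field_simp
      linear_combination (-(z ^ (2 * i + 1))) * hee
    rw [h2, norm_mul, norm_mul, norm_pow]
    have h3 : ‖e‖ = 1 := by rcases he with rfl | rfl <;> simp
    have h4 : ‖(q : ℂ)‖ = (q : ℝ) := by
      rw [Complex.norm_ratCast, abs_of_pos hqR]
    rw [h3, h4, one_mul]
  have hodd2 : ∀ i : ℕ, (2 * i + 1).Coprime n →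
      ∑ z ∈ (H.aroots ℂ).toFinset, z ^ (2 * (2 * i + 1)) =
        (q : ℂ) ^ (2 * i) * ∑ z ∈ (H.aroots ℂ).toFinset, z ^ 2 := by
    intro i hi
    obtain ⟨e, he, hf⟩ := sums hn hω hq ht hH h0 hi
    have h1 := hf fun z => z ^ 2
    have hqi : (q : ℂ) ^ i ≠ 0 := pow_ne_zero _ hq'
    rw [← h1, Finset.mul_sum]
    refine Finset.sum_congr rfl fun z _ => ?_
    have hee : e ^ 2 = 1 := by rcases he with rfl | rfl <;> norm_num
    rw [mul_pow, hee, div_pow, ← pow_mul, ← pow_mul]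
    have hqi2 : (q : ℂ) ^ (i * 2) ≠ 0 := pow_ne_zero _ hq'
    rw [mul_comm 2 i, one_mul, mul_div_cancel₀ _ hqi2]
    ring
  refine ⟨hdeg1, hdeg2, hcard, hsq, ?_, ?_⟩
  · intro j hj0 hj
    rw [Nat.coprime_mul_iff_right] at hj
    obtain ⟨i, hi⟩ : Odd j := (Nat.coprime_two_right).1 hj.1
    subst hi
    rw [hodd1 i hj.2, Nat.add_sub_cancel, pow_mul, Real.sq_sqrt hqR.le]
  · intro j hj0 hj
    have hkey : ∑ z ∈ (H.aroots ℂ).toFinset, z ^ (2 * j) =
        (q : ℂ) ^ (j - 1) * ∑ z ∈ (H.aroots ℂ).toFinset, z ^ 2 := by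
      rcases Nat.even_or_odd j with hev | ⟨i, hi⟩
      · have hnodd : Odd n := by
          rcases Nat.even_or_odd n with h | h
          · exfalso
            have h1 : 2 ∣ Nat.gcd j n := Nat.dvd_gcd hev.two_dvd h.two_dvd
            rw [Nat.Coprime] at hj
            rw [hj] at h1
            omega
          · exact h
        obtain ⟨i, hi⟩ := hev.add_odd hnodd
        have hc : (2 * i + 1).Coprime n := by
          rw [← hi]
          simpa using hj
        have h1 := hodd2 i hc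
        rw [← hi] at h1
        have h2 : ∑ z ∈ (H.aroots ℂ).toFinset, z ^ (2 * (j + n)) =
            (q : ℂ) ^ n * ∑ z ∈ (H.aroots ℂ).toFinset, z ^ (2 * j) := by
          rw [Finset.mul_sum]
          refine Finset.sum_congr rfl fun z hz => ?_
          rw [mul_add, pow_add, pow_2n hn hω hq ht hH h0 ((mem_R hH).1 hz)]
          ring
        rw [h2] at h1
        have hqn : (q : ℂ) ^ n ≠ 0 := pow_ne_zero _ hq'
        have h3 : (q : ℂ) ^ (2 * i) = (q : ℂ) ^ n * (q : ℂ) ^ (j - 1) := by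
          rw [← pow_add]
          congr 1
          omega
        rw [h3, mul_assoc] at h1
        exact mul_left_cancel₀ hqn h1
      · subst hi
        rw [hodd2 i hj, Nat.add_sub_cancel]
    rw [hkey, norm_mul, norm_pow, Complex.norm_ratCast, abs_of_pos hqR]

end Pool.Agent.Y640.RP
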